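import Pool.Agent.Helper5.CR.A4

/-!
# Crossing systems with a sparse orientation: definitions

A crossing system all of whose edges are crossed, with an orientation of the edges in which every
vertex has outdegree at most `d`.
-/

noncomputable section

open Finset Helper5.CR Classical

namespace Helper5.BD

variable {V E X : Type} [Fintype V] [Fintype E] [Fintype X]

/-- An orientation of the edges of a crossing system with outdegrees at most `d`; every edge is
crossed. -/
structure Ori (C : CSys V E X) (d : ℕ) where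
  lo : E → V
  hi : E → V
  ends : ∀ e, (C.src e = lo e ∧ C.tgt e = hi e) ∨ (C.src e = hi e ∧ C.tgt e = lo e)
  uniq : ∀ e f, lo e = lo f → hi e = hi f → e = f
  anti : ∀ e f, lo e = hi f → hi e = lo f → False
  out : ∀ v, (univ.filter (fun e => lo e = v)).card ≤ d
  pos : ∀ e, 0 < C.k e

namespace Ori

variable {C : CSys V E X} {d : ℕ} (O : Ori C d)

/-- an arc from `u` to `v` -/
def arc (u v : V) : Prop := ∃ e, O.lo e = u ∧ O.hi e = v

/-- adjacent vertices -/
def adj (u v : V) : Prop := O.arc u v ∨ O.arc v u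

/-- `u` and `v` are ends of different edges of the crossing `x` -/
def cp (x : X) (u v : V) : Prop :=
  ((u = O.lo (C.e₁ x) ∨ u = O.hi (C.e₁ x)) ∧ (v = O.lo (C.e₂ x) ∨ v = O.hi (C.e₂ x))) ∨
  ((v = O.lo (C.e₁ x) ∨ v = O.hi (C.e₁ x)) ∧ (u = O.lo (C.e₂ x) ∨ u = O.hi (C.e₂ x)))

/-- the edge `e` joins ends of different edges of `x` -/
def jn (x : X) (e : E) : Prop := O.cp x (O.lo e) (O.hi e)

/-- the number of crossings with an edge joined by `e` -/
def cj (e : E) : ℕ := (univ.filter (fun x => O.jn x e)).card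

/-- common in-neighbours of two vertices -/
def com (p : V × V) : Finset V := univ.filter (fun a => O.arc a p.1 ∧ O.arc a p.2)

/-- common in-neighbours of the ends of an edge -/
def cm (f : E) : Finset V := O.com (O.lo f, O.hi f)

/-- degree -/
def deg (v : V) : ℕ := (univ.filter (fun e => O.lo e = v ∨ O.hi e = v)).card

/-- `f` joins the tops of `g` and `h`, which have the same low end -/
def tri (f g h : E) : Prop := O.lo g = O.lo h ∧ O.hi g = O.lo f ∧ O.hi h = O.hi f

/-- edges with more than `p` common in-neighbours -/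
def A2 (p : ℕ) : Finset E := univ.filter (fun f => p < (O.cm f).card)

/-- the sides of the triangles over the edges with at most `p` common in-neighbours -/
def A1 (p : ℕ) : Finset E :=
  univ.filter (fun e => ∃ f, O.lo f = O.hi e ∧ O.lo e ∈ O.cm f ∧ (O.cm f).card ≤ p)

/-- the low ends are adjacent -/
def N1 (x : X) : Prop := O.adj (O.lo (C.e₁ x)) (O.lo (C.e₂ x))

/-- an arc from the top of an edge to the low end of the other edge -/
def N2 (x : X) : Prop :=
  O.arc (O.hi (C.e₁ x)) (O.lo (C.e₂ x)) ∨ O.arc (O.hi (C.e₂ x)) (O.lo (C.e₁ x))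

/-- nonadjacent pairs joined by a directed path of length two -/
def Γ2 (u v : V) : Prop := ¬ O.adj u v ∧ ∃ w, O.arc u w ∧ O.arc w v

/-- a cross pair in `Γ2` -/
def G2 (x : X) : Prop := ∃ u v, O.Γ2 u v ∧ O.cp x u v

/-- nonadjacent pairs `(c, a)` with arcs `c → b`, `a → b`, the second one in `A1` -/
def Γ1 (p : ℕ) (u v : V) : Prop := ¬ O.adj u v ∧ ∃ e ∈ O.A1 p, O.lo e = v ∧ O.arc u (O.hi e)

/-- a cross pair in `Γ1` -/
def G1 (p : ℕ) (x : X) : Prop := ∃ u v, O.Γ1 p u v ∧ O.cp x u v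

/-- both low ends joined to both tops, tops adjacent -/
def ABC (x : X) : Prop :=
  O.arc (O.lo (C.e₁ x)) (O.hi (C.e₂ x)) ∧ O.arc (O.lo (C.e₂ x)) (O.hi (C.e₁ x)) ∧
    O.adj (O.hi (C.e₁ x)) (O.hi (C.e₂ x))

/-- both low ends joined to both tops, tops not adjacent -/
def AB (x : X) : Prop :=
  O.arc (O.lo (C.e₁ x)) (O.hi (C.e₂ x)) ∧ O.arc (O.lo (C.e₂ x)) (O.hi (C.e₁ x)) ∧
    ¬ O.adj (O.hi (C.e₁ x)) (O.hi (C.e₂ x))

/-- a triangle formed by one edge of the crossing and the top of the other one -/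
def T (x : X) : Prop :=
  (O.arc (O.hi (C.e₁ x)) (O.hi (C.e₂ x)) ∧ O.arc (O.lo (C.e₁ x)) (O.hi (C.e₂ x))) ∨
  (O.arc (O.hi (C.e₂ x)) (O.hi (C.e₁ x)) ∧ O.arc (O.lo (C.e₂ x)) (O.hi (C.e₁ x)))

/-- number of crossings with a property -/
def cnt (p : X → Prop) : ℕ := (univ.filter (fun x => p x)).card

/-- First order flatness: no first order gain. -/
structure Flat (τ : ℝ) : Prop where
  f1 : ∀ (Γ : V → V → Prop) (D : ℕ), (∀ u v, Γ u v → ¬ O.adj u v) →
    (∀ u, (univ.filter (fun v => Γ u v)).card ≤ D) →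
    (cnt (fun x => ∃ u v, Γ u v ∧ O.cp x u v) : ℝ) ≤ τ * D * Fintype.card X
  f2 : ∀ A : Finset E, |(∑ e ∈ A, (C.k e : ℝ)) - ∑ e ∈ A, (O.cj e : ℝ)| ≤ τ * d * Fintype.card X

/-- the edges which are long compared with a way around through a common in-neighbour -/
def Fs (B : ℕ) : Finset E := univ.filter (fun f => ∃ g h, O.tri f g h ∧
  4 * B * (C.k g + C.k h + O.deg (O.lo g)) ≤ C.k f)

/-- The rerouting inequality: the crossing number `c` of the graph formed by the edges is at most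
the number of crossings not on the edges of `F` plus `B` times the cost of the ways around. -/
def Reroute (B c : ℕ) : Prop := ∀ (F : Finset E) (g h : E → E), (∀ f ∈ F, O.tri f (g f) (h f)) →
  c ≤ cnt (fun x => C.e₁ x ∉ F ∧ C.e₂ x ∉ F) +
    B * ∑ f ∈ F, (C.k (g f) + C.k (h f) + O.deg (O.lo (g f)))

/-- the node `(p, a)` uses the edge `e` -/
def uses (p : V × V) (a : V) (e : E) : Prop := O.lo e = a ∧ (O.hi e = p.1 ∨ O.hi e = p.2)

/-- crossing edges -/
def crs (C : CSys V E X) (e f : E) : Prop :=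
  ∃ x, (C.e₁ x = e ∧ C.e₂ x = f) ∨ (C.e₁ x = f ∧ C.e₂ x = e)

/-- conflicting nodes -/
def Rel (p : V × V) (a : V) (p' : V × V) (a' : V) : Prop :=
  a = a' ∨ p' = p.swap ∨ ∃ e f, O.uses p a e ∧ O.uses p' a' f ∧ crs C e f

/-- The hub property of plane families: a nonempty family `J` of pairs of vertices with
representatives `ρ p`, where the edges from the representatives do not cross, has a vertex in
between 1 and 6 pairs. -/
def HubProp : Prop := ∀ (J : Finset (V × V)) (ρ : V × V → V), J.Nonempty →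
  (∀ p ∈ J, O.arc (ρ p) p.1 ∧ O.arc (ρ p) p.2 ∧ p.1 ≠ p.2) →
  (∀ p ∈ J, ∀ p' ∈ J, p ≠ p' → ρ p ≠ ρ p' ∧ p' ≠ p.swap) →
  (∀ p ∈ J, ∀ p' ∈ J, ρ p ≠ p'.1 ∧ ρ p ≠ p'.2) →
  (∀ p ∈ J, ∀ p' ∈ J, ∀ e f, O.uses p (ρ p) e → O.uses p' (ρ p') f → ¬ crs C e f) →
  ∃ v, 1 ≤ (J.filter (fun p => p.1 = v ∨ p.2 = v)).card ∧
    (J.filter (fun p => p.1 = v ∨ p.2 = v)).card ≤ 6

/-- the number of crossings of type `AB` with given tops -/
def w (p : V × V) : ℕ := cnt (fun x => O.AB x ∧ O.hi (C.e₁ x) = p.1 ∧ O.hi (C.e₂ x) = p.2)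

end Ori

end Helper5.BD
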