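import Pool.Agent.Helper5.CR.B6

/-!
# Reduced drawings and wheels: definitions
-/

noncomputable section

open Finset Helper5.CR Classical Equiv Equiv.Perm

namespace Helper5.BD

variable {V E : Type} [Fintype E] {src tgt : E → V}

/-- the list of the interior points of an edge -/
def ipts (P : PreDrawing src tgt) (e : E) : List P.X := (P.route e).tail.map P.pt

/-- `1` if the segment of the dart `d` is used by the edge `e`, otherwise `0` -/
def sg (P : PreDrawing src tgt) (e : E) (d : P.D) : ℕ :=
  if d ∈ P.route e ∨ P.α d ∈ P.route e then 1 else 0

/-- every dart is used and every interior point of an edge has exactly two passes -/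
def Red (P : PreDrawing src tgt) : Prop :=
  (∀ d, P.Used d) ∧ ∀ e, ∀ x ∈ ipts P e, P.passes x = 2

/-- The points of the wheel map: every point `x` of a map is surrounded by a circle, which meets the
segment of the dart `d` in the rim point `inr d`. The darts at the rim point `inr d`:
`(d, 0)` outwards, `(d, 1)` along the circle to the next rim point `inr (σ d)`, `(d, 2)` to the
centre, `(σ⁻¹ d, 3)` along the circle to the previous rim point. `(d, 4)` is the dart at the centre
towards the rim point `inr d`. -/
def wpt {D X : Type} (σ : Perm D) (pt : D → X) (a : D × Fin 5) : X ⊕ D :=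
  if a.2 = 4 then Sum.inl (pt a.1) else if a.2 = 3 then Sum.inr (σ a.1) else Sum.inr a.1

/-- the opposite dart in the wheel map -/
def wa {D : Type} (α : Perm D) (a : D × Fin 5) : D × Fin 5 :=
  if a.2 = 0 then (α a.1, 0) else if a.2 = 1 then (a.1, 3) else if a.2 = 2 then (a.1, 4)
  else if a.2 = 3 then (a.1, 1) else (a.1, 2)

/-- The structure of a wheel map over a planar map. -/
structure Wheel {D X : Type} (σ α : Perm D) (pt : D → X) (σ' α' : Perm (D × Fin 5)) : Prop where
  planar : Planar σ' α'
  same : ∀ a b, wpt σ pt a = wpt σ pt b ↔ σ'.SameCycle a b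
  opp : ∀ a, α' a = wa α a

/-- degree of a vertex in a multigraph -/
def mdeg (src tgt : E → V) (v : V) : ℕ := (univ.filter (fun e => src e = v ∨ tgt e = v)).card

/-- number of crossings with an edge of `F` on neither side -/
def away (P : PreDrawing src tgt) (F : Finset E) : ℕ :=
  Nat.card {x : P.X // P.passes x = 2 ∧ ∀ f ∈ F, x ∉ ipts P f}

end Helper5.BD
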