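import Pool.Agent.Helper9.BD.Red
import Pool.Agent.Helper9.BD.GR7
import Pool.Agent.Helper92.BD.GR6
import Pool.Agent.Helper1.BD.GH3
import Pool.Agent.Helper24.BD.GF1
import Pool.Agent.Helper4.BD.M2
import Pool.Agent.Helper34.BD.M4

/-!
# The geometric inputs
-/

noncomputable section

open Finset Helper5.CR Classical

namespace Helper5.BD

variable {V E : Type} [Fintype E] {src tgt : E → V}

theorem reroute_all [Fintype V] (P : PreDrawing src tgt) (hG : P.Good)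
    (hne : ∀ e, src e ≠ tgt e) (F : Finset E) (g₁ g₂ : E → E) (ap : E → V) (M : ℕ)
    (hF : ∀ f ∈ F, 0 < (P.toCSys hG hne).k f ∧ 0 < (P.toCSys hG hne).k (g₁ f) ∧
      0 < (P.toCSys hG hne).k (g₂ f))
    (h1 : ∀ f ∈ F, (src (g₁ f) = ap f ∧ tgt (g₁ f) = src f) ∨
      (src (g₁ f) = src f ∧ tgt (g₁ f) = ap f))
    (h2 : ∀ f ∈ F, (src (g₂ f) = ap f ∧ tgt (g₂ f) = tgt f) ∨
      (src (g₂ f) = tgt f ∧ tgt (g₂ f) = ap f))
    (hM : ∀ v, (F.filter (fun f => ap f = v)).card ≤ M) :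
    crS src tgt (fun e => 0 < (P.toCSys hG hne).k e) ≤
      (univ.filter (fun x => P.ed₁ hG x ∉ F ∧ P.ed₂ hG x ∉ F)).card +
      5 * (8 * M + 2) ^ 2 *
      ∑ f ∈ F, ((P.toCSys hG hne).k (g₁ f) + (P.toCSys hG hne).k (g₂ f) +
        (univ.filter (fun e => 0 < (P.toCSys hG hne).k e ∧ (src e = ap f ∨ tgt e = ap f))).card) :=
  reroute_gen_of (red_all V) (fun _ _ _ _ P hG hR hne hpos F g1 g2 ap M h1 h2 hM =>
    reroute_red P hG hR hne hpos F g1 g2 ap M h1 h2 hM) P hG hne F g₁ g₂ ap M hF h1 h2 hM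

theorem hub_all [Fintype V] (P : PreDrawing src tgt) (hG : P.Good)
    (hne : ∀ e, src e ≠ tgt e) {ι : Type} [Fintype ι] [Nonempty ι] (r b c : ι → V)
    (eb ec : ι → E)
    (heb : ∀ i, (src (eb i) = r i ∧ tgt (eb i) = b i) ∨ (src (eb i) = b i ∧ tgt (eb i) = r i))
    (hec : ∀ i, (src (ec i) = r i ∧ tgt (ec i) = c i) ∨ (src (ec i) = c i ∧ tgt (ec i) = r i))
    (hr : Function.Injective r) (hrb : ∀ i j, r i ≠ b j) (hrc : ∀ i j, r i ≠ c j)
    (hbc : ∀ i, b i ≠ c i)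
    (hpair : ∀ i j, i ≠ j → ¬ (b i = b j ∧ c i = c j) ∧ ¬ (b i = c j ∧ c i = b j))
    (hcr : ∀ i j, ∀ e ∈ ({eb i, ec i} : Set E), ∀ f ∈ ({eb j, ec j} : Set E), e ≠ f →
      ∀ x, x ∈ ipts P e → x ∉ ipts P f) :
    ∃ v, 1 ≤ (univ.filter (fun i => b i = v ∨ c i = v)).card ∧
      (univ.filter (fun i => b i = v ∨ c i = v)).card ≤ 6 :=
  hub_drawing_of P hG hne r b c eb ec heb hec hr hrb hrc hbc hpair hcr
    (fun P' => exists_reduced P')

end Helper5.BD
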