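import Pool.Agent.Helper80.BD.C1
import Pool.Agent.Helper83.BD.C2
import Pool.Agent.Helper9.BD.C3
import Pool.Agent.Helper47.BD.C4
import Pool.Agent.Helper81.BD.C5
import Pool.Agent.Helper34.BD.C6
import Pool.Agent.Helper99.BD.C7
import Pool.Agent.Helper97.BD.C8
import Pool.Agent.Helper50.BD.C9
import Pool.Agent.Helper62.BD.C10
import Pool.Agent.Helper37.BD.C11
import Pool.Agent.Helper69.BD.D6

/-!
# The combinatorial main theorem
-/

noncomputable section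

open Finset Helper5.CR Classical

namespace Helper5.BD

theorem sum_A2_le {V E X : Type} [Fintype V] [Fintype E] [Fintype X] {C : CSys V E X} {d : ℕ}
    (O : Ori C d) (B c p : ℕ) (hp : 0 < p) (t : ℝ) (hR : O.Reroute B c)
    (hc : (1 - 8 * t ^ 2) * (Fintype.card X : ℝ) ≤ c)
    (hE : Fintype.card E ≤ Fintype.card X) :
    ((∑ f ∈ O.A2 p, C.k f : ℕ) : ℝ) ≤
      (4 * B * (4 * d + 2 * (d : ℝ) ^ 2) / p + 32 * t ^ 2) * Fintype.card X := by
  have h1 := sum_A2_diff O p B (sum_tri O)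
  have h2 := sum_Fs O B c hR t hc
  have h3 : ∑ f ∈ O.A2 p, C.k f ≤ ∑ f ∈ O.A2 p \ O.Fs B, C.k f + ∑ f ∈ O.Fs B, C.k f := by
    rw [← Finset.sum_union Finset.sdiff_disjoint]
    refine Finset.sum_le_sum_of_subset ?_
    intro f hf
    by_cases h : f ∈ O.Fs B
    · exact mem_union_right _ h
    · exact mem_union_left _ (mem_sdiff.2 ⟨hf, h⟩)
  have h4 : p * ∑ f ∈ O.A2 p \ O.Fs B, C.k f ≤
      4 * B * (4 * d + 2 * d ^ 2) * Fintype.card X := by
    refine h1.trans ?_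
    have h5 : 4 * d * Fintype.card X + 2 * d ^ 2 * Fintype.card E ≤
        (4 * d + 2 * d ^ 2) * Fintype.card X := by
      rw [add_mul]
      exact Nat.add_le_add_left (Nat.mul_le_mul_left _ hE) _
    calc 4 * B * (4 * d * Fintype.card X + 2 * d ^ 2 * Fintype.card E)
        ≤ 4 * B * ((4 * d + 2 * d ^ 2) * Fintype.card X) := Nat.mul_le_mul_left _ h5
      _ = _ := by ring
  have h4r : (p : ℝ) * ((∑ f ∈ O.A2 p \ O.Fs B, C.k f : ℕ) : ℝ) ≤
      4 * B * (4 * d + 2 * (d : ℝ) ^ 2) * Fintype.card X := by exact_mod_cast h4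
  have h3r : ((∑ f ∈ O.A2 p, C.k f : ℕ) : ℝ) ≤ ((∑ f ∈ O.A2 p \ O.Fs B, C.k f : ℕ) : ℝ) +
      ((∑ f ∈ O.Fs B, C.k f : ℕ) : ℝ) := by exact_mod_cast h3
  have hp' : (0 : ℝ) < p := by exact_mod_cast hp
  have h6 : ((∑ f ∈ O.A2 p \ O.Fs B, C.k f : ℕ) : ℝ) ≤
      4 * B * (4 * d + 2 * (d : ℝ) ^ 2) / p * Fintype.card X := by
    rw [div_mul_eq_mul_div, le_div_iff₀ hp', mul_comm]
    exact h4r
  rw [add_mul]
  linarith

/-- The combinatorial main theorem. -/
theorem comb_main (d B p K Q : ℕ) (hp : p = 960 * B * (4 * d + 2 * d ^ 2) + 1)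
    (hK : K = 8 * (30 * d ^ 2 + 12 * p ^ 2) + d ^ 4 + 1)
    (hQ : Q = 19 * d + 15 * d ^ 2 + 12 * d ^ 2 * p + 2048 * (4 * d ^ 2 + 1) + 10)
    (t : ℝ) (ht : t = 1 / (1024 * Q))
    (V E X : Type) [Fintype V] [Fintype E] [Fintype X] (C : CSys V E X) (O : Ori C d) (c : ℕ)
    (hX : 0 < Fintype.card X) (hE : K * Fintype.card E ≤ Fintype.card X)
    (hcol : ∀ col : V → Bool,
      (3 / 8 - t ^ 2) * (Fintype.card X : ℝ) ≤ ((∑ x, C.base col x : ℕ) : ℝ))
    (hR : O.Reroute B c) (hc : (1 - 8 * t ^ 2) * (Fintype.card X : ℝ) ≤ c) (hH : O.HubProp) :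
    False := by
  have hp0 : 0 < p := by omega
  have hK0 : 0 < K := by omega
  have hQ0 : 0 < Q := by omega
  have hpr : (0 : ℝ) < p := by exact_mod_cast hp0
  have hKr : (0 : ℝ) < K := by exact_mod_cast hK0
  have hQr : (0 : ℝ) < Q := by exact_mod_cast hQ0
  have hQ1 : (2058 : ℝ) ≤ Q := by
    have : 2058 ≤ Q := by rw [hQ]; omega
    exact_mod_cast this
  have ht0 : (0 : ℝ) < t := by rw [ht]; positivity
  have ht1 : t ≤ 1 / 2 := by
    rw [ht]
    apply one_div_le_one_div_of_le (by norm_num)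
    linarith
  have hgv := fun s D hD0 hD => sum_gv_le C t ht0 ht1 hcol s D hD0 hD
  have hf : O.Flat (64 * t) :=
    ⟨fun Γ D h1 h2 => flat_f1 O t hgv Γ D h1 h2, fun A => flat_f2 O t hgv A⟩
  have hEX : Fintype.card E ≤ Fintype.card X := by
    refine le_trans ?_ hE
    exact Nat.le_mul_of_pos_left _ hK0
  have ha := sum_A2_le O B c p hp0 t hR hc hEX
  have hN : (0 : ℝ) < Fintype.card X := by exact_mod_cast hX
  have hm : (Fintype.card E : ℝ) ≤ 1 / K * Fintype.card X := by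
    rw [div_mul_eq_mul_div, one_mul, le_div_iff₀ hKr, mul_comm]
    exact_mod_cast hE
  have hτ : 64 * t = 1 / (16 * Q) := by
    rw [ht]; field_simp; norm_num
  have hs1 : 1 / (K : ℝ) * (30 * d ^ 2 + 12 * p ^ 2) ≤ 1 / 8 := by
    rw [div_mul_eq_mul_div, one_mul, div_le_div_iff₀ hKr (by norm_num)]
    have : (30 * d ^ 2 + 12 * p ^ 2) * 8 ≤ 1 * K := by rw [hK]; omega
    exact_mod_cast this
  have hs2 : 64 * t * (19 * (d : ℝ) + 15 * d ^ 2 + 12 * d ^ 2 * p) ≤ 1 / 16 := by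
    rw [hτ, div_mul_eq_mul_div, one_mul, div_le_div_iff₀ (by positivity) (by norm_num)]
    have : (19 * d + 15 * d ^ 2 + 12 * d ^ 2 * p) * 16 ≤ 1 * (16 * Q) := by rw [hQ]; omega
    exact_mod_cast this
  have hs3 : 15 * (4 * B * (4 * d + 2 * (d : ℝ) ^ 2) / p) ≤ 1 / 16 := by
    rw [← mul_div_assoc, div_le_div_iff₀ hpr (by norm_num)]
    have : 15 * (4 * B * (4 * d + 2 * d ^ 2)) * 16 ≤ 1 * p := by
      rw [hp]
      have : 15 * (4 * B * (4 * d + 2 * d ^ 2)) * 16 = 960 * B * (4 * d + 2 * d ^ 2) := by ring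
      omega
    exact_mod_cast this
  have hs4 : 15 * (32 * t ^ 2) ≤ 1 / 16 := by
    have h1 : t ≤ 1 / 1024 := by
      rw [ht]
      apply one_div_le_one_div_of_le (by norm_num)
      linarith
    have h2 : t ^ 2 ≤ (1 / 1024) ^ 2 := pow_le_pow_left₀ ht0.le h1 2
    linarith
  have hAB := AB_large O (64 * t) _ (1 / K) p hf ha hm (by
      have : 15 * (4 * B * (4 * d + 2 * (d : ℝ) ^ 2) / p + 32 * t ^ 2) ≤ 1 / 8 := by linarith
      linarith) (card_jn_le_four O) (jn_class O) (card_N1 O) (card_N2 O) (card_G2 O _ hf)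
    (card_G1 O _ hf p) (card_ABC O p) (card_T O p)
    (sum_cj_A1 O p (card_jn_le_four O) (jn_A1 O p))
  have hd4 : d ^ 4 * Fintype.card E ≤ Fintype.card X := by
    refine le_trans (Nat.mul_le_mul_right _ ?_) hE
    omega
  have hfin := extraction O (64 * t) hf hH hAB hX hd4
  rw [hτ] at hfin
  have h1 : 6 * (1 / (16 * (Q : ℝ))) < 1 / Q := by
    rw [← mul_div_assoc, div_lt_div_iff₀ (by positivity) hQr]
    linarith
  have h2 : 1 / (Q : ℝ) ≤ 1 / (2048 * (4 * (d : ℝ) ^ 2 + 1)) := by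
    apply one_div_le_one_div_of_le (by positivity)
    have : 2048 * (4 * d ^ 2 + 1) ≤ Q := by rw [hQ]; omega
    exact_mod_cast this
  linarith

end Helper5.BD
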