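import Pool.Agent.Helper5.BD.M1
import Pool.Agent.Helper5.BD.Geo
import Pool.Agent.Helper27.SG.Main

/-!
# Crossed graphs of bounded degeneracy
-/

noncomputable section

open Finset Helper5.CR Classical

namespace Helper5.BD

/-- The improvement for general multigraphs without parallel edges. -/
theorem core (d B p K Q : ℕ) (hB : B = 5 * (8 * d ^ 2 + 2) ^ 2)
    (hp : p = 960 * B * (4 * d + 2 * d ^ 2) + 1)
    (hK : K = 8 * (30 * d ^ 2 + 12 * p ^ 2) + d ^ 4 + 1)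
    (hQ : Q = 19 * d + 15 * d ^ 2 + 12 * d ^ 2 * p + 2048 * (4 * d ^ 2 + 1) + 10)
    (V E : Type) [Fintype V] [Fintype E] (src tgt : E → V) (P : PreDrawing src tgt)
    (hG : P.Good) (hne : ∀ e, src e ≠ tgt e)
    (hu : ∀ e f, src e = src f → tgt e = tgt f → e = f)
    (hC : ∀ e f, src e = tgt f → tgt e = src f → False)
    (out : V → Finset V) (ho : ∀ v, (out v).card ≤ d)
    (hout : ∀ e, 0 < (P.toCSys hG hne).k e → tgt e ∈ out (src e) ∨ src e ∈ out (tgt e))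
    (hX : 0 < P.crossings) (hE : K * Fintype.card (Ec (P.toCSys hG hne)) ≤ P.crossings) :
    ∃ S : E → Prop, ((crS src tgt S + crS src tgt (fun e => ¬ S e) : ℕ) : ℝ) ≤
      (3 / 8 - (1 / (1024 * (Q : ℝ))) ^ 2) * P.crossings := by
  obtain ⟨t, ht⟩ : ∃ t : ℝ, t = 1 / (1024 * Q) := ⟨_, rfl⟩
  rw [← ht]
  by_contra hcon
  push Not at hcon
  have hcard := P.card_X2
  let O : Ori (rs (P.toCSys hG hne)) d := mkOri (P.toCSys hG hne) hu hC d out ho hout
  refine comb_main d B p K Q hp hK hQ t ht V (Ec (P.toCSys hG hne)) P.X2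
    (rs (P.toCSys hG hne)) O (crS src tgt (fun e => 0 < (P.toCSys hG hne).k e)) ?_ ?_ ?_ ?_ ?_ ?_
  · rw [hcard]; exact hX
  · rw [hcard]; exact hE
  · intro col
    obtain ⟨S, hS⟩ := Helper27.SG.exists_decomp P hG hne col
    have h1 := (hcon S).le
    rw [hcard]
    refine h1.trans ?_
    exact_mod_cast hS
  · rw [hB]
    exact reroute_rs P hG hne O (fun F g₁ g₂ ap M h1 h2 h3 h4 =>
      reroute_all P hG hne F g₁ g₂ ap M h1 h2 h3 h4)
  · obtain ⟨S, hS⟩ := wallfree P hG hne (fun e => 0 < (P.toCSys hG hne).k e)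
      (fun x => ⟨k_pos₁ (P.toCSys hG hne) x, k_pos₂ (P.toCSys hG hne) x⟩)
    have h1 := hcon S
    have h2 : (8 : ℝ) * ((crS src tgt S + crS src tgt (fun e => ¬ S e) : ℕ) : ℝ) ≤
        2 * P.crossings + crS src tgt (fun e => 0 < (P.toCSys hG hne).k e) := by
      exact_mod_cast hS
    rw [hcard]
    nlinarith
  · exact hub_rs P hG hne O (fun ι _ _ r b c eb ec h1 h2 h3 h4 h5 h6 h7 h8 =>
      hub_all P hG hne r b c eb ec h1 h2 h3 h4 h5 h6 h7 h8)

theorem card_Ec {V E : Type} [Fintype V] [Fintype E] {src tgt : E → V} (P : PreDrawing src tgt)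
    (hG : P.Good) (hne : ∀ e, src e ≠ tgt e) :
    Fintype.card (Ec (P.toCSys hG hne)) = P.crossedEdges := by
  rw [P.crossedEdges_eq hG hne, Fintype.card_subtype]
  rfl

theorem crossed_of_k {V E : Type} [Fintype V] [Fintype E] {src tgt : E → V}
    (P : PreDrawing src tgt) (hG : P.Good) (hne : ∀ e, src e ≠ tgt e) (e : E)
    (he : 0 < (P.toCSys hG hne).k e) : ∃ δ ∈ (P.route e).tail, P.passes (P.pt δ) = 2 := by
  obtain ⟨x, hx⟩ := Finset.card_pos.1 he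
  simp only [mem_filter, mem_univ, true_and] at hx
  have : P.thru e x.1 := by
    rw [P.thru_iff hG x e]
    rcases hx with h | h
    · exact Or.inl h.symm
    · exact Or.inr h.symm
  obtain ⟨δ, hδ, hδx⟩ := List.mem_map.1 this
  exact ⟨δ, hδ, by rw [hδx]; exact x.2⟩

/-- the size of the constants -/
theorem const_bound (d B p K Q : ℕ) (hB : B = 5 * (8 * d ^ 2 + 2) ^ 2)
    (hp : p = 960 * B * (4 * d + 2 * d ^ 2) + 1)
    (hK : K = 8 * (30 * d ^ 2 + 12 * p ^ 2) + d ^ 4 + 1)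
    (hQ : Q = 19 * d + 15 * d ^ 2 + 12 * d ^ 2 * p + 2048 * (4 * d ^ 2 + 1) + 10) :
    13 * K + 3 ≤ 10 ^ 15 * (d + 1) ^ 12 ∧ 20 + 2 * Q ≤ 10 ^ 15 * (d + 1) ^ 12 := by
  obtain ⟨x, hx⟩ : ∃ x, x = d + 1 := ⟨_, rfl⟩
  have hx1 : 1 ≤ x := by omega
  have hpow : ∀ a b : ℕ, a ≤ b → x ^ a ≤ x ^ b := fun a b h => Nat.pow_le_pow_right hx1 h
  have hd : d ≤ x := by omega
  have hd2 : d ^ 2 ≤ x ^ 2 := Nat.pow_le_pow_left hd 2
  have hB1 : 8 * d ^ 2 + 2 ≤ 8 * x ^ 2 := by rw [hx]; ring_nf; omega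
  have hB2 : B ≤ 320 * x ^ 4 := by
    rw [hB]
    calc 5 * (8 * d ^ 2 + 2) ^ 2 ≤ 5 * (8 * x ^ 2) ^ 2 := by gcongr
      _ = 320 * x ^ 4 := by ring
  have hd3 : 4 * d + 2 * d ^ 2 ≤ 2 * x ^ 2 := by rw [hx]; ring_nf; omega
  have hp2 : p ≤ 614401 * x ^ 6 := by
    rw [hp]
    calc 960 * B * (4 * d + 2 * d ^ 2) + 1 ≤ 960 * (320 * x ^ 4) * (2 * x ^ 2) + x ^ 6 := by
          gcongr
          exact Nat.one_le_pow _ _ hx1
      _ = 614401 * x ^ 6 := by ring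
  have hK2 : K ≤ 37000000000000 * x ^ 12 := by
    rw [hK]
    calc 8 * (30 * d ^ 2 + 12 * p ^ 2) + d ^ 4 + 1
        ≤ 8 * (30 * x ^ 12 + 12 * (614401 * x ^ 6) ^ 2) + x ^ 12 + x ^ 12 := by
          have h1 : d ^ 2 ≤ x ^ 12 := hd2.trans (hpow 2 12 (by norm_num))
          have h2 : d ^ 4 ≤ x ^ 12 := (Nat.pow_le_pow_left hd 4).trans (hpow 4 12 (by norm_num))
          have h3 : 1 ≤ x ^ 12 := Nat.one_le_pow _ _ hx1
          gcongr
      _ = (240 + 96 * 614401 ^ 2 + 2) * x ^ 12 := by ring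
      _ ≤ 37000000000000 * x ^ 12 := by
          apply Nat.mul_le_mul_right
          norm_num
  have hQ2 : Q ≤ 7500000 * x ^ 12 := by
    rw [hQ]
    calc 19 * d + 15 * d ^ 2 + 12 * d ^ 2 * p + 2048 * (4 * d ^ 2 + 1) + 10
        ≤ 19 * x ^ 12 + 15 * x ^ 12 + 12 * x ^ 2 * (614401 * x ^ 6) +
          2048 * (4 * x ^ 12 + x ^ 12) + 10 * x ^ 12 := by
          have h0 : d ≤ x ^ 12 := hd.trans (by simpa using hpow 1 12 (by norm_num))
          have h1 : d ^ 2 ≤ x ^ 12 := hd2.trans (hpow 2 12 (by norm_num))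
          have h3 : 1 ≤ x ^ 12 := Nat.one_le_pow _ _ hx1
          have h4 : 10 ≤ 10 * x ^ 12 := by omega
          gcongr
      _ = 10284 * x ^ 12 + 7372812 * x ^ 8 := by ring
      _ ≤ 10284 * x ^ 12 + 7372812 * x ^ 12 := by
          have := hpow 8 12 (by norm_num)
          gcongr
      _ ≤ 7500000 * x ^ 12 := by omega
  have h3 : 1 ≤ x ^ 12 := Nat.one_le_pow _ _ hx1
  rw [← hx]
  constructor
  · calc 13 * K + 3 ≤ 13 * (37000000000000 * x ^ 12) + 3 * x ^ 12 := by omega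
      _ ≤ 10 ^ 15 * x ^ 12 := by
        rw [← mul_assoc, ← add_mul]
        apply Nat.mul_le_mul_right
        norm_num
  · calc 20 + 2 * Q ≤ 20 * x ^ 12 + 2 * (7500000 * x ^ 12) := by omega
      _ ≤ 10 ^ 15 * x ^ 12 := by
        rw [← mul_assoc, ← add_mul]
        apply Nat.mul_le_mul_right
        norm_num

/-- For graphs with an optimal drawing whose crossed edges have a sparse orientation the constant
`3/8` can be improved. -/
theorem main (d n : ℕ) (G H : SimpleGraph (Fin n))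
    (P : PreDrawing (fun e : Edge G => e.1.1) (fun e : Edge G => e.1.2)) (hs : P.Simple)
    (hopt : P.crossings = cr G)
    (hH : ∀ e : Edge G, (∃ δ ∈ (P.route e).tail, P.passes (P.pt δ) = 2) → H.Adj e.1.1 e.1.2)
    (ho : ∃ out : Fin n → Finset (Fin n), (∀ v, (out v).card ≤ d) ∧
      ∀ u v, H.Adj u v → v ∈ out u ∨ u ∈ out v) :
    (cr₂ G : ℝ) ≤ (3 / 8 - 1 / 2 ^ (10 ^ 15 * (d + 1) ^ 12)) * cr G := by
  obtain ⟨B, hB⟩ : ∃ B : ℕ, B = 5 * (8 * d ^ 2 + 2) ^ 2 := ⟨_, rfl⟩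
  obtain ⟨p, hp⟩ : ∃ p : ℕ, p = 960 * B * (4 * d + 2 * d ^ 2) + 1 := ⟨_, rfl⟩
  obtain ⟨K, hK⟩ : ∃ K : ℕ, K = 8 * (30 * d ^ 2 + 12 * p ^ 2) + d ^ 4 + 1 := ⟨_, rfl⟩
  obtain ⟨Q, hQ⟩ : ∃ Q : ℕ, Q = 19 * d + 15 * d ^ 2 + 12 * d ^ 2 * p +
    2048 * (4 * d ^ 2 + 1) + 10 := ⟨_, rfl⟩
  obtain ⟨hM1, hM2⟩ := const_bound d B p K Q hB hp hK hQ
  obtain ⟨M, hM⟩ : ∃ M : ℕ, M = 10 ^ 15 * (d + 1) ^ 12 := ⟨_, rfl⟩
  rw [← hM] at hM1 hM2 ⊢
  have hQ0 : 0 < Q := by omega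
  have hne := edge_ne G
  have hG := P.good_of_optimal hne hs hopt
  have hNr : (0 : ℝ) ≤ cr G := Nat.cast_nonneg _
  by_cases hcase : cr G ≤ K * P.crossedEdges
  · refine (sparse_main K n G P hs hopt hcase).trans (mul_le_mul_of_nonneg_right ?_ hNr)
    have h2 : (2 : ℝ) ^ (2 + 2 * (4 * K)) = 4 ^ (4 * K + 1) := by
      rw [show 2 + 2 * (4 * K) = 2 * (4 * K + 1) by ring, pow_mul]
      norm_num
    rw [h2]
    have h3 : (2 * ((K : ℝ) + 1) * (4 * K + 1) * 4 ^ (4 * K + 1)) ≤ 2 ^ M := by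
      have h4 := (Helper27.SG.pow_bound K).trans (Nat.pow_le_pow_right (n := 2) (by norm_num) hM1)
      exact_mod_cast h4
    have h5 := one_div_le_one_div_of_le (by positivity) h3
    linarith
  · push Not at hcase
    obtain ⟨out, ho1, ho2⟩ := ho
    obtain ⟨S, hS⟩ := core d B p K Q hB hp hK hQ (Fin n) (Edge G) _ _ P hG hne
      (fun e f h1 h2 => Subtype.ext (Prod.ext h1 h2))
      (fun e f h1 h2 => by
        have he := e.2.1
        have hf := f.2.1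
        rw [h1, h2] at he
        exact absurd hf (lt_asymm he)) out ho1
      (fun e he => ho2 _ _ (hH e (crossed_of_k P hG hne e he)))
      (by rw [hopt]; exact lt_of_le_of_lt (Nat.zero_le _) hcase)
      (by rw [card_Ec, hopt]; exact hcase.le)
    have h1 : (cr₂ G : ℝ) ≤ ((crS (fun e : Edge G => e.1.1) (fun e : Edge G => e.1.2) S +
        crS (fun e : Edge G => e.1.1) (fun e : Edge G => e.1.2) (fun e => ¬ S e) : ℕ) : ℝ) := by
      exact_mod_cast cr₂_le G S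
    rw [hopt] at hS
    refine (h1.trans hS).trans (mul_le_mul_of_nonneg_right ?_ hNr)
    have h3 : (1024 * (Q : ℝ)) ^ 2 ≤ 2 ^ M := by
      have h4 : (1024 * Q) ^ 2 ≤ 2 ^ (20 + 2 * Q) := by
        calc (1024 * Q) ^ 2 ≤ (1024 * 2 ^ Q) ^ 2 := by
              have : Q ≤ 2 ^ Q := Nat.lt_two_pow_self.le
              gcongr
          _ = 2 ^ (20 + 2 * Q) := by
              rw [mul_pow, pow_add, ← pow_mul, mul_comm Q 2]
              norm_num
      have h5 := h4.trans (Nat.pow_le_pow_right (n := 2) (by norm_num) hM2)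
      exact_mod_cast h5
    have h5 := one_div_le_one_div_of_le (by positivity) h3
    have h6 : (1 / (1024 * (Q : ℝ))) ^ 2 = 1 / (1024 * (Q : ℝ)) ^ 2 := by
      rw [div_pow, one_pow]
    rw [h6]
    linarith

end Helper5.BD
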