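import Pool.Agent.Helper5.BD.Defs
import Pool.Agent.Helper5.BD.GDefs

/-!
# The crossing system of the crossed edges
-/

noncomputable section

set_option linter.unusedSectionVars false

open Finset Helper5.CR Classical

namespace Helper5.BD

variable {V E X : Type} [Fintype V] [Fintype E] [Fintype X]

theorem k_pos₁ (C : CSys V E X) (x : X) : 0 < C.k (C.e₁ x) := by
  unfold CSys.k
  exact Finset.card_pos.2 ⟨x, by simp⟩

theorem k_pos₂ (C : CSys V E X) (x : X) : 0 < C.k (C.e₂ x) := by
  unfold CSys.k
  exact Finset.card_pos.2 ⟨x, by simp⟩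

/-- the crossed edges -/
abbrev Ec (C : CSys V E X) : Type := {e // 0 < C.k e}

/-- forget the edges without crossings -/
def rs (C : CSys V E X) : CSys V (Ec C) X where
  src e := C.src e.1
  tgt e := C.tgt e.1
  e₁ x := ⟨C.e₁ x, k_pos₁ C x⟩
  e₂ x := ⟨C.e₂ x, k_pos₂ C x⟩
  loop e := C.loop e.1
  ne x h := C.ne x (congrArg Subtype.val h)
  h1 := C.h1
  h2 := C.h2
  h3 := C.h3
  h4 := C.h4
  once x y h := by
    apply C.once
    rcases h with ⟨h, h'⟩ | ⟨h, h'⟩
    · exact Or.inl ⟨congrArg Subtype.val h, congrArg Subtype.val h'⟩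
    · exact Or.inr ⟨congrArg Subtype.val h, congrArg Subtype.val h'⟩

theorem rs_k (C : CSys V E X) (e : Ec C) {inst : DecidableEq (Ec C)} :
    @CSys.k V (Ec C) X inst _ (rs C) e = C.k e.1 := by
  unfold CSys.k
  refine congrArg Finset.card (Finset.ext fun x => ?_)
  rw [mem_filter, mem_filter]
  refine and_congr_right fun _ => or_congr ?_ ?_
  · exact Subtype.ext_iff
  · exact Subtype.ext_iff

theorem rs_base (C : CSys V E X) (col : V → Bool) (x : X) :
    (rs C).base col x = C.base col x := rfl

/-- the orientation of the crossed edges given by sets of out-neighbours -/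
def mkOri (C : CSys V E X)
    (hu : ∀ e f, C.src e = C.src f → C.tgt e = C.tgt f → e = f)
    (hC : ∀ e f, C.src e = C.tgt f → C.tgt e = C.src f → False) (d : ℕ)
    (out : V → Finset V) (ho : ∀ v, (out v).card ≤ d)
    (hout : ∀ e, 0 < C.k e → C.tgt e ∈ out (C.src e) ∨ C.src e ∈ out (C.tgt e)) :
    Ori (rs C) d where
  lo e := if C.tgt e.1 ∈ out (C.src e.1) then C.src e.1 else C.tgt e.1
  hi e := if C.tgt e.1 ∈ out (C.src e.1) then C.tgt e.1 else C.src e.1
  ends e := by
    by_cases h : C.tgt e.1 ∈ out (C.src e.1)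
    · rw [if_pos h, if_pos h]; exact Or.inl ⟨rfl, rfl⟩
    · rw [if_neg h, if_neg h]; exact Or.inr ⟨rfl, rfl⟩
  uniq e f h1 h2 := by
    have he := hC e.1 f.1
    apply Subtype.ext
    split_ifs at h1 h2
    · exact hu _ _ h1 h2
    · exact (he h1 h2).elim
    · exact (he h2 h1).elim
    · exact hu _ _ h2 h1
  anti e f h1 h2 := by
    have he := hC e.1 f.1
    split_ifs at h1 h2 with a b b
    · exact he h1 h2
    · apply b
      rw [← h1, ← h2]
      exact a
    · apply a
      rw [h1, h2]
      exact b
    · exact he h2 h1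
  out v := by
    refine le_trans ?_ (ho v)
    refine Finset.card_le_card_of_injOn
      (fun e => if C.tgt e.1 ∈ out (C.src e.1) then C.tgt e.1 else C.src e.1) ?_ ?_
    · intro e he
      simp only [coe_filter, mem_univ, true_and, Set.mem_ofPred_eq] at he
      simp only [mem_coe]
      split_ifs at he ⊢ with h
      · rw [← he]; exact h
      · rw [← he]
        exact (hout e.1 e.2).resolve_left h
    · intro e he f hf hef
      simp only [coe_filter, mem_univ, true_and, Set.mem_ofPred_eq] at he hf
      have h1 := hC e.1 f.1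
      apply Subtype.ext
      simp only at hef
      split_ifs at he hf hef
      · exact hu _ _ (he.trans hf.symm) hef
      · exact (h1 (he.trans hf.symm) hef).elim
      · exact (h1 hef (he.trans hf.symm)).elim
      · exact hu _ _ hef (he.trans hf.symm)
  pos e := by rw [rs_k]; exact e.2

end Helper5.BD
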